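import Pool.Agent.Helper71.Neg.Hard2
import Pool.Agent.Helper71.Neg.Face
import Pool.Agent.Helper6.NegGapMain

/-!
# CLIQUE with few non-monotone gates
-/

set_option autoImplicit false

namespace Pool.Agent.Results.MP_b6562f_lc.NegationLevels

open Finset

/-- Circuits with `S` gates on graphs `G` with the vertices `0, …, n - 1`. The gates are numbered
`0, …, S - 1`. Gate `i` computes the predicate `f i` and reads the gates in `ins i`; these have
smaller numbers. A gate that is not in `A` is a constant, an input (is `uv` an edge of `G`?), or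
the AND or the OR of two gates that it reads. The gates in `A` are arbitrary: such a gate is any
Boolean function of the gates that it reads (of any number of them), for instance a NOT gate. -/
structure Circuit (n S : ℕ) where
  /-- the predicate computed by a gate -/
  f : ℕ → SimpleGraph (Fin n) → Prop
  /-- the gates read by a gate -/
  ins : ℕ → Finset ℕ
  /-- the arbitrary gates -/
  A : Finset ℕ
  lt : ∀ i < S, ∀ j ∈ ins i, j < i
  mono : ∀ i < S, i ∉ A →
    (∃ b : Prop, ∀ G, f i G ↔ b) ∨ (∃ u v, ∀ G, f i G ↔ G.Adj u v) ∨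
    (∃ j ∈ ins i, ∃ k ∈ ins i,
      ((∀ G, f i G ↔ (f j G ∧ f k G)) ∨ (∀ G, f i G ↔ (f j G ∨ f k G))))
  any : ∀ i < S, i ∈ A → ∀ G G', (∀ j ∈ ins i, (f j G ↔ f j G')) → (f i G ↔ f i G')

/-- The levels `lev i` of the gates are admissible: they are at most `t`, a gate is not on a lower
level than the gates that it reads, an arbitrary gate is on a higher level than the gates that it
reads, and for each `m = 1, …, t` the arbitrary gates on level `m` read together at most `r m`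
gates. -/
def Circuit.Levels {n S : ℕ} (c : Circuit n S) (lev : ℕ → ℕ) (t : ℕ) (r : ℕ → ℕ) : Prop :=
  (∀ i < S, lev i ≤ t) ∧
  (∀ i < S, ∀ j ∈ c.ins i, lev j ≤ lev i ∧ (i ∈ c.A → lev j < lev i)) ∧
  ∀ m, 1 ≤ m → m ≤ t → ((c.A.filter (fun i => i < S ∧ lev i = m)).biUnion c.ins).card ≤ r m

open Classical in
/-- The probability of `E` if `ω` has the probability `p ω`. -/
noncomputable def prob {Ω : Type} [Fintype Ω] (p : Ω → ℝ) (E : Ω → Prop) : ℝ :=
  ∑ ω, if E ω then p ω else 0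

lemma Circuit.wired {n S : ℕ} (c : Circuit n S) : Pool.Agent.Helper71.Neg.Wired S c.f c.ins c.A :=
  ⟨c.lt, c.mono, c.any⟩

lemma prob_eq {Ω : Type} [Fintype Ω] (p : Ω → ℝ) (E : Ω → Prop) :
    prob p E = ∑ ω, p ω * @ite ℝ (E ω) (Classical.dec _) 1 0 := by
  classical
  unfold prob
  refine sum_congr rfl (fun ω _ => ?_)
  by_cases h : E ω
  · rw [if_pos h, if_pos h, mul_one]
  · rw [if_neg h, if_neg h, mul_zero]

lemma one_le_two_log {S : ℕ} (hS : 2 ≤ S) : 1 ≤ 2 * Real.log S := by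
  have h1 : Real.log 2 ≤ Real.log S := Real.log_le_log (by norm_num) (by exact_mod_cast hS)
  have h2 := Real.log_two_gt_d9
  linarith

/-- Random circuits of size `S` that accept the graphs with a clique of size `K` and reject the
graphs without a clique of size `K - d`, with probability at least `1 / 2 + δ`, need many
non-monotone gates, on many levels. -/
theorem result (δ : ℝ) (hδ : 0 < δ) :
    ∃ C : ℝ, 0 < C ∧ ∀ (n S K d : ℕ) (L : ℝ), 2 ≤ n → n ≤ S → K ≤ n →
      L = Real.log S ^ 2 * Real.log n → C * L + d ≤ K →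
      ∀ (Ω : Type) [Fintype Ω] (p : Ω → ℝ) (c : Ω → Circuit n S) (out : Ω → ℕ),
      (∀ ω, 0 ≤ p ω) → ∑ ω, p ω = 1 → (∀ ω, out ω < S) →
      (∀ G : SimpleGraph (Fin n), ¬ G.CliqueFree K →
        1 / 2 + δ ≤ prob p (fun ω => (c ω).f (out ω) G)) →
      (∀ G : SimpleGraph (Fin n), G.CliqueFree (K - d) →
        1 / 2 + δ ≤ prob p (fun ω => ¬ (c ω).f (out ω) G)) →
      ∀ (t : ℕ) (r : ℕ → ℕ) (lev : Ω → ℕ → ℕ), (∀ ω, (c ω).Levels (lev ω) t r) →
      ((n : ℝ) - K) ^ 2 ≤ C * (L + d) ^ 2 * Real.log S ^ 2 *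
        ((L + d) ^ 2 + ∏ m ∈ Icc 1 t, (1 + (r m : ℝ))) := by
  obtain ⟨C, hC, H⟩ := Pool.Agent.Helper6.NegGapMain.neg_gap
    (fun s k g l ρ S _ hl hρ hg hk τ ζ hτ hτ2 hζ t q r hq hsq =>
      Pool.Agent.Helper71.Neg.exists_hard2 s k g l ρ S hl hρ hg hk τ ζ hτ hτ2 hζ t r q hq hsq)
    δ hδ
  refine ⟨C ^ 2 * (C + 8) ^ 4 + C, by positivity, ?_⟩
  intro n S K d L hn hnS hKn hL hK Ω _ p c out hp hp1 hout hpos hneg
  have hS : 2 ≤ S := hn.trans hnS
  have hlS := one_le_two_log hS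
  have hln := one_le_two_log hn
  have hlS0 : 0 < Real.log S := by linarith
  have hln0 : 0 < Real.log n := by linarith
  have hL0 : 0 < L := by
    rw [hL]
    positivity
  have hL8 : 1 ≤ 8 * L := by
    rw [hL]
    have h1 : (1 : ℝ) ≤ (2 * Real.log S) ^ 2 := one_le_pow₀ hlS
    nlinarith [mul_le_mul h1 hln zero_le_one (by positivity)]
  have hCL : 0 ≤ C * L := by positivity
  -- the parameters of the gap version
  obtain ⟨w, hw⟩ : ∃ w : ℕ, w = ⌈C * L⌉₊ := ⟨_, rfl⟩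
  have hw1 : C * L ≤ w := hw ▸ Nat.le_ceil _
  have hw2 : (w : ℝ) ≤ C * L + 1 := hw ▸ (Nat.ceil_lt_add_one hCL).le
  have hK' : C * L + d ≤ K := by
    have : 0 ≤ C ^ 2 * (C + 8) ^ 4 * L := by positivity
    nlinarith
  have hdK : d ≤ K := by
    have : (d : ℝ) ≤ K := by linarith
    exact_mod_cast this
  have hwK : w + d ≤ K := by
    have h1 : w ≤ K - d := by
      rw [hw]
      apply Nat.ceil_le.2
      rw [Nat.cast_sub hdK]
      linarith
    omega
  have hKd : w + (K - (w + d)) = K - d := by omega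
  have hs : ((w + d : ℕ) : ℝ) ≤ (C + 8) * (L + d) := by
    push_cast
    have h1 : (0 : ℝ) ≤ d := Nat.cast_nonneg _
    nlinarith
  have hs0 : (0 : ℝ) ≤ ((w + d : ℕ) : ℝ) := Nat.cast_nonneg _
  have hLd : 0 < L + d := by
    have h1 : (0 : ℝ) ≤ d := Nat.cast_nonneg _
    linarith
  -- the final estimate
  have hfin : ∀ P : ℝ, 0 ≤ P →
      ((n : ℝ) - K) ^ 2 ≤ (C * ((w + d : ℕ) : ℝ) * Real.log S) ^ 2 *
        (((w + d : ℕ) : ℝ) ^ 2 + P) →
      ((n : ℝ) - K) ^ 2 ≤ (C ^ 2 * (C + 8) ^ 4 + C) * (L + d) ^ 2 * Real.log S ^ 2 *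
        ((L + d) ^ 2 + P) := by
    intro P hP h
    have h1 : (C * ((w + d : ℕ) : ℝ) * Real.log S) ^ 2 * (((w + d : ℕ) : ℝ) ^ 2 + P) ≤
        (C * ((C + 8) * (L + d)) * Real.log S) ^ 2 * (((C + 8) * (L + d)) ^ 2 + P) := by
      gcongr
    have h2 : ((C + 8) * (L + d)) ^ 2 + P ≤ (C + 8) ^ 2 * ((L + d) ^ 2 + P) := by
      have h3 : 1 ≤ (C + 8) ^ 2 := one_le_pow₀ (by linarith)
      have h4 : P ≤ (C + 8) ^ 2 * P := le_mul_of_one_le_left hP h3
      nlinarith
    have h5 : (C * ((C + 8) * (L + d)) * Real.log S) ^ 2 * (((C + 8) * (L + d)) ^ 2 + P) ≤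
        (C * ((C + 8) * (L + d)) * Real.log S) ^ 2 * ((C + 8) ^ 2 * ((L + d) ^ 2 + P)) := by
      gcongr
    have h6 : (C * ((C + 8) * (L + d)) * Real.log S) ^ 2 * ((C + 8) ^ 2 * ((L + d) ^ 2 + P)) =
        C ^ 2 * (C + 8) ^ 4 * (L + d) ^ 2 * Real.log S ^ 2 * ((L + d) ^ 2 + P) := by ring
    have h7 : C ^ 2 * (C + 8) ^ 4 * (L + d) ^ 2 * Real.log S ^ 2 * ((L + d) ^ 2 + P) ≤
        (C ^ 2 * (C + 8) ^ 4 + C) * (L + d) ^ 2 * Real.log S ^ 2 * ((L + d) ^ 2 + P) := by
      gcongr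
      linarith
    linarith
  have hpos' : ∀ G : SimpleGraph (Fin n), ¬ G.CliqueFree K → 1 / 2 + δ ≤
      ∑ ω, p ω * @ite ℝ ((c ω).f (out ω) G) (Classical.dec _) 1 0 := by
    intro G hG
    rw [← prob_eq]
    exact hpos G hG
  have hneg' : ∀ G : SimpleGraph (Fin n), G.CliqueFree (w + (K - (w + d))) → 1 / 2 + δ ≤
      ∑ ω, p ω * @ite ℝ (¬ (c ω).f (out ω) G) (Classical.dec _) 1 0 := by
    intro G hG
    rw [← prob_eq]
    rw [hKd] at hG
    exact hneg G hG
  have hw3 : C * Real.log S ^ 2 * Real.log n ≤ w := by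
    rw [mul_assoc, ← hL]
    exact hw1
  intro t r lev hlev
  have h := H n K (w + d) w t S r hn hnS hw3 (by omega) hwK hKn Ω p (fun ω => (c ω).f) lev
    (fun ω => (c ω).A.filter (fun i => i < S)) (fun ω => (c ω).ins) out hp hp1
    (fun ω => (c ω).wired.circ (hlev ω).2.1) (fun ω => (hlev ω).1)
    (fun ω m hm => Pool.Agent.Helper71.Neg.reads_le (hlev ω).1 (hlev ω).2.2 m hm) hout
    hpos' hneg'
  have h2 : ∏ m ∈ Icc 1 t, (1 + (r m : ℝ)) = ∏ m ∈ range t, (1 + (r (m + 1) : ℝ)) := by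
    have : Icc 1 t = Ico 1 (t + 1) := by
      ext x
      simp only [mem_Icc, mem_Ico]
      omega
    rw [this, prod_Ico_eq_prod_range]
    refine prod_congr (by simp) (fun m _ => ?_)
    rw [add_comm 1 m]
  rw [h2]
  exact hfin _ (prod_nonneg (fun m _ => by positivity)) h

end Pool.Agent.Results.MP_b6562f_lc.NegationLevels
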